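import Pool.Agent.helper65.GF.SpecG

/-! # Row bz:YNB -/

set_option autoImplicit false

namespace Pool.Agent.GD

open Finset Metric Filter Topology

theorem YNB_AA (j r k : ℕ) : AA (j + r + 1) (j + r + 2 + k) (j + 1) =
    2 * ((j : ℝ) + 1) * ((2 * j + 2 * r + 3 + k).factorial : ℝ) /
      ((r.factorial : ℝ) * ((2 * j + r + 2).factorial : ℝ) * (k.factorial : ℝ) *
        (((r : ℝ) + 1 + k) * (2 * j + r + 3 + k))) := by
  unfold AA
  rw [show j + r + 2 + k + (j + r + 1) = 2 * j + 2 * r + 3 + k by omega,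
    show j + r + 1 - (j + 1) = r by omega, show j + r + 1 + (j + 1) = 2 * j + r + 2 by omega,
    show j + r + 2 + k - (j + r + 1) - 1 = k by omega]
  congr 1
  · push_cast
    ring
  · push_cast
    ring

theorem YNB_AH (j r k : ℕ) : AH (j + r) (j + r + 1 + k) j =
    (2 * (j : ℝ) + 1) * ((2 * j + 2 * r + 2 + k).factorial : ℝ) /
      ((r.factorial : ℝ) * ((2 * j + r + 1).factorial : ℝ) * (k.factorial : ℝ) *
        (((r : ℝ) + 1 + k) * (2 * j + r + 2 + k))) := by
  unfold AH
  rw [show j + r + 1 + k + (j + r) + 1 = 2 * j + 2 * r + 2 + k by omega,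
    show j + r - j = r by omega, show j + r + j + 1 = 2 * j + r + 1 by omega,
    show j + r + 1 + k - (j + r) - 1 = k by omega]
  congr 1
  push_cast
  ring

theorem YNB_step0 (j k : ℕ) : AA (j + 1) (j + 2 + (k + 1)) (j + 1) =
    AA (j + 1) (j + 2 + k) (j + 1) + AH j (j + 1 + (k + 1)) j := by
  have h1 := YNB_AA j 0 (k + 1)
  have h2 := YNB_AA j 0 k
  have h3 := YNB_AH j 0 (k + 1)
  simp only [add_zero, mul_zero] at h1 h2 h3
  rw [h1, h2, h3]
  rw [show 2 * j + 3 + (k + 1) = (2 * j + 3 + k) + 1 by omega,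
    show 2 * j + 2 + (k + 1) = 2 * j + 3 + k by omega,
    Nat.factorial_succ (2 * j + 3 + k), show 2 * j + 2 = (2 * j + 1) + 1 by omega,
    Nat.factorial_succ (2 * j + 1), Nat.factorial_succ k]
  have hF : (0 : ℝ) < ((2 * j + 3 + k).factorial : ℝ) := by exact_mod_cast Nat.factorial_pos _
  have hB : (0 : ℝ) < ((2 * j + 1).factorial : ℝ) := by exact_mod_cast Nat.factorial_pos _
  have hK : (0 : ℝ) < (k.factorial : ℝ) := by exact_mod_cast Nat.factorial_pos _
  generalize ((2 * j + 3 + k).factorial : ℕ) = F at *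
  generalize ((2 * j + 1).factorial : ℕ) = B at *
  generalize (k.factorial : ℕ) = K at *
  push_cast
  rw [Nat.factorial_zero]
  push_cast
  field_simp
  ring

theorem YNB_step1 (j s k : ℕ) : AA (j + (s + 1) + 1) (j + (s + 1) + 2 + (k + 1)) (j + 1) =
    AA (j + (s + 1) + 1) (j + (s + 1) + 2 + k) (j + 1) +
      (AH (j + (s + 1)) (j + (s + 1) + 1 + (k + 1)) j +
        AH (j + 1 + s) (j + 1 + s + 1 + (k + 1)) (j + 1)) := by
  rw [YNB_AA j (s + 1) (k + 1), YNB_AA j (s + 1) k, YNB_AH j (s + 1) (k + 1),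
    YNB_AH (j + 1) s (k + 1)]
  rw [show 2 * j + 2 * (s + 1) + 3 + (k + 1) = (2 * j + 2 * s + 5 + k) + 1 by omega,
    show 2 * j + 2 * (s + 1) + 3 + k = 2 * j + 2 * s + 5 + k by omega,
    show 2 * j + 2 * (s + 1) + 2 + (k + 1) = 2 * j + 2 * s + 5 + k by omega,
    show 2 * (j + 1) + 2 * s + 2 + (k + 1) = 2 * j + 2 * s + 5 + k by omega,
    show 2 * j + (s + 1) + 2 = (2 * j + s + 2) + 1 by omega,
    show 2 * (j + 1) + s + 1 = (2 * j + s + 2) + 1 by omega,
    show 2 * j + (s + 1) + 1 = 2 * j + s + 2 by omega,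
    Nat.factorial_succ (2 * j + 2 * s + 5 + k), Nat.factorial_succ (2 * j + s + 2),
    Nat.factorial_succ k, Nat.factorial_succ s]
  have hF : (0 : ℝ) < ((2 * j + 2 * s + 5 + k).factorial : ℝ) := by
    exact_mod_cast Nat.factorial_pos _
  have hB : (0 : ℝ) < ((2 * j + s + 2).factorial : ℝ) := by exact_mod_cast Nat.factorial_pos _
  have hK : (0 : ℝ) < (k.factorial : ℝ) := by exact_mod_cast Nat.factorial_pos _
  have hS : (0 : ℝ) < (s.factorial : ℝ) := by exact_mod_cast Nat.factorial_pos _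
  generalize ((2 * j + 2 * s + 5 + k).factorial : ℕ) = F at *
  generalize ((2 * j + s + 2).factorial : ℕ) = B at *
  generalize (k.factorial : ℕ) = K at *
  generalize (s.factorial : ℕ) = R at *
  push_cast
  field_simp
  ring

theorem YNB_base0 (j : ℕ) : AA (j + 1) (j + 2) (j + 1) = 1 + AH j (j + 1) j := by
  have h2 := YNB_AA j 0 0
  have h3 := YNB_AH j 0 0
  simp only [add_zero, mul_zero] at h2 h3
  rw [h2, h3]
  rw [show 2 * j + 3 = (2 * j + 2) + 1 by omega, Nat.factorial_succ (2 * j + 2),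
    show 2 * j + 2 = (2 * j + 1) + 1 by omega, Nat.factorial_succ (2 * j + 1)]
  have hB : (0 : ℝ) < ((2 * j + 1).factorial : ℝ) := by exact_mod_cast Nat.factorial_pos _
  generalize ((2 * j + 1).factorial : ℕ) = B at *
  rw [Nat.factorial_zero]
  push_cast
  field_simp
  ring

theorem YNB_base1 (j s : ℕ) : AA (j + (s + 1) + 1) (j + (s + 1) + 2) (j + 1) =
    AH (j + (s + 1)) (j + (s + 1) + 1) j + AH (j + 1 + s) (j + 1 + s + 1) (j + 1) := by
  have h1 := YNB_AA j (s + 1) 0
  have h2 := YNB_AH j (s + 1) 0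
  have h3 := YNB_AH (j + 1) s 0
  simp only [add_zero] at h1 h2 h3
  rw [h1, h2, h3]
  rw [show 2 * j + 2 * (s + 1) + 3 = (2 * j + 2 * s + 4) + 1 by omega,
    show 2 * j + 2 * (s + 1) + 2 = 2 * j + 2 * s + 4 by omega,
    show 2 * (j + 1) + 2 * s + 2 = 2 * j + 2 * s + 4 by omega,
    show 2 * j + (s + 1) + 2 = (2 * j + s + 2) + 1 by omega,
    show 2 * (j + 1) + s + 1 = (2 * j + s + 2) + 1 by omega,
    show 2 * j + (s + 1) + 1 = 2 * j + s + 2 by omega,
    Nat.factorial_succ (2 * j + 2 * s + 4), Nat.factorial_succ (2 * j + s + 2),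
    Nat.factorial_succ s]
  have hF : (0 : ℝ) < ((2 * j + 2 * s + 4).factorial : ℝ) := by
    exact_mod_cast Nat.factorial_pos _
  have hB : (0 : ℝ) < ((2 * j + s + 2).factorial : ℝ) := by exact_mod_cast Nat.factorial_pos _
  have hS : (0 : ℝ) < (s.factorial : ℝ) := by exact_mod_cast Nat.factorial_pos _
  generalize ((2 * j + 2 * s + 4).factorial : ℕ) = F at *
  generalize ((2 * j + s + 2).factorial : ℕ) = B at *
  generalize (s.factorial : ℕ) = R at *
  rw [Nat.factorial_zero]
  push_cast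
  field_simp
  ring

theorem YNB_Ioo (p k : ℕ) : Ioo p (p + 2 + k) = Ioc p (p + 1 + k) := by
  ext x
  simp only [mem_Ioo, mem_Ioc]
  omega

theorem YNB : YNB_stmt := by
  intro p n i hi hip hn
  obtain ⟨k, rfl⟩ : ∃ k, n = p + 2 + k := ⟨n - (p + 2), by omega⟩
  obtain ⟨j, rfl⟩ : ∃ j, i = j + 1 := ⟨i - 1, by omega⟩
  rw [YNB_Ioo, show j + 1 - 1 = j by omega]
  rcases Nat.lt_or_ge p (j + 1) with h | h
  · have hpj : p = j := by omega
    subst hpj
    rw [if_pos rfl]
    have hif : ∀ m, (if p + 1 ≤ p then AH p m (p + 1) else (0 : ℝ)) = 0 := by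
      intro m
      rw [if_neg (by omega)]
    simp only [hif, add_zero]
    clear hn
    induction k with
    | zero =>
      rw [show p + 1 + 0 = p + 1 by omega, sum_Ioc_succ_top (le_refl p), Ioc_self, sum_empty,
        zero_add]
      exact YNB_base0 p
    | succ k ih =>
      rw [show p + 1 + (k + 1) = p + 1 + k + 1 by omega, sum_Ioc_succ_top (by omega),
        YNB_step0 p k, ih, show p + 1 + k + 1 = p + 1 + (k + 1) by omega]
      ring
  · obtain ⟨s, rfl⟩ : ∃ s, p = j + (s + 1) := ⟨p - j - 1, by omega⟩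
    rw [if_neg (by omega)]
    have hif : ∀ m, (if j + 1 ≤ j + (s + 1) then AH (j + (s + 1)) m (j + 1) else (0 : ℝ)) =
        AH (j + 1 + s) m (j + 1) := by
      intro m
      rw [if_pos (by omega), show j + (s + 1) = j + 1 + s by omega]
    simp only [hif]
    clear hn
    induction k with
    | zero =>
      rw [show j + (s + 1) + 1 + 0 = j + (s + 1) + 1 by omega,
        sum_Ioc_succ_top (le_refl (j + (s + 1))), Ioc_self, sum_empty, zero_add, zero_add,
        show j + (s + 1) + 2 + 0 = j + (s + 1) + 2 by omega, YNB_base1 j s,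
        show j + 1 + s + 1 = j + (s + 1) + 1 by omega]
    | succ k ih =>
      rw [show j + (s + 1) + 1 + (k + 1) = j + (s + 1) + 1 + k + 1 by omega,
        sum_Ioc_succ_top (by omega), YNB_step1 j s k, ih,
        show j + (s + 1) + 1 + k + 1 = j + (s + 1) + 1 + (k + 1) by omega,
        show j + 1 + s + 1 + (k + 1) = j + (s + 1) + 1 + (k + 1) by omega]
      ring

end Pool.Agent.GD
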